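import Pool.Agent.H746R4.Tau.Roots

set_option autoImplicit false

namespace Pool.Agent.H746R4.Tau

open Polynomial Finset Filter Topology

/-- The parabola with coefficients `b + 1`. -/
noncomputable def par {s₀ s₁ s₂ : ℕ} (b : Fin s₀ × Fin s₁ × Fin s₂) : ℕ → ℕ := fun x =>
  ((b.1 : ℕ) + 1) + ((b.2.1 : ℕ) + 1) * x + ((b.2.2 : ℕ) + 1) * x ^ 2

/-- The same parabola as a real polynomial. -/
noncomputable def parP {s₀ s₁ s₂ : ℕ} (b : Fin s₀ × Fin s₁ × Fin s₂) : ℝ[X] :=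
  C (((b.1 : ℕ) : ℝ) + 1) + C (((b.2.1 : ℕ) : ℝ) + 1) * X + C (((b.2.2 : ℕ) : ℝ) + 1) * X ^ 2

lemma parP_eval {s₀ s₁ s₂ : ℕ} (b : Fin s₀ × Fin s₁ × Fin s₂) (x : ℝ) :
    (parP b).eval x = (((b.1 : ℕ) : ℝ) + 1) + (((b.2.1 : ℕ) : ℝ) + 1) * x +
      (((b.2.2 : ℕ) : ℝ) + 1) * x ^ 2 := by
  simp [parP]

lemma parP_eval_nat {s₀ s₁ s₂ : ℕ} (b : Fin s₀ × Fin s₁ × Fin s₂) (l : ℕ) :
    (parP b).eval (l : ℝ) = (par b l : ℝ) := by
  rw [parP_eval]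
  simp [par]

lemma parP_natDegree {s₀ s₁ s₂ : ℕ} (b : Fin s₀ × Fin s₁ × Fin s₂) :
    (parP b).natDegree ≤ 2 := by
  unfold parP
  compute_degree

/-- Each parabola meets the curve `y = η x ^ N` at a far point. -/
lemma exists_point {s₀ s₁ s₂ : ℕ} (N : ℕ) (hN : 3 ≤ N) (Q : ℝ) (hQ : 1 ≤ Q)
    (b : Fin s₀ × Fin s₁ × Fin s₂) :
    ∃ x : ℝ, Q ≤ x ∧ (parP b).eval x = (Q ^ N)⁻¹ * x ^ N := by
  have hQ0 : 0 < Q := by linarith
  have hQN : 0 < Q ^ N := by positivity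
  set η := (Q ^ N)⁻¹ with hη
  have hη0 : 0 < η := inv_pos.mpr hQN
  have h1 : ∃ Z : ℝ, Q ≤ Z ∧ (parP b).eval Z ≤ η * Z ^ N := by
    set A : ℝ := (((b.1 : ℕ) : ℝ) + 1) + (((b.2.1 : ℕ) : ℝ) + 1) + (((b.2.2 : ℕ) : ℝ) + 1) with hA
    have hA0 : 0 < A := by positivity
    refine ⟨max Q (A / η), le_max_left _ _, ?_⟩
    set Z := max Q (A / η) with hZ
    have hZ1 : 1 ≤ Z := le_trans hQ (le_max_left _ _)
    have hZ0 : 0 < Z := by linarith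
    have h2 : (parP b).eval Z ≤ A * Z ^ 2 := by
      rw [parP_eval, hA]
      have h3 : (1 : ℝ) ≤ Z ^ 2 := one_le_pow₀ hZ1
      have h4 : Z ≤ Z ^ 2 := by nlinarith
      have h5 : (((b.1 : ℕ) : ℝ) + 1) * 1 ≤ (((b.1 : ℕ) : ℝ) + 1) * Z ^ 2 :=
        mul_le_mul_of_nonneg_left h3 (by positivity)
      have h6 : (((b.2.1 : ℕ) : ℝ) + 1) * Z ≤ (((b.2.1 : ℕ) : ℝ) + 1) * Z ^ 2 :=
        mul_le_mul_of_nonneg_left h4 (by positivity)
      linarith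
    have h7 : A ≤ η * Z := by
      have := le_max_right Q (A / η)
      rw [div_le_iff₀ hη0] at this
      linarith
    calc (parP b).eval Z ≤ A * Z ^ 2 := h2
      _ ≤ (η * Z) * Z ^ 2 := mul_le_mul_of_nonneg_right h7 (by positivity)
      _ = η * Z ^ 3 := by ring
      _ ≤ η * Z ^ N := mul_le_mul_of_nonneg_left (pow_le_pow_right₀ hZ1 hN) hη0.le
  obtain ⟨Z, hZ1, hZ2⟩ := h1
  have hcont : ContinuousOn (fun x : ℝ => η * x ^ N - (parP b).eval x) (Set.Icc Q Z) :=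
    ((continuous_const.mul (continuous_pow N)).sub (parP b).continuous).continuousOn
  have h8 : η * Q ^ N - (parP b).eval Q ≤ 0 := by
    rw [hη, inv_mul_cancel₀ hQN.ne', parP_eval]
    have : 0 ≤ ((b.1 : ℕ) : ℝ) := by positivity
    have : 0 ≤ (((b.2.1 : ℕ) : ℝ) + 1) * Q := by positivity
    have : 0 ≤ (((b.2.2 : ℕ) : ℝ) + 1) * Q ^ 2 := by positivity
    linarith
  have h9 : 0 ≤ η * Z ^ N - (parP b).eval Z := by linarith
  obtain ⟨x, hx, hx0⟩ := intermediate_value_Icc hZ1 hcont ⟨h8, h9⟩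
  refine ⟨x, hx.1, ?_⟩
  simp only at hx0
  linarith

/-- Two different parabolas of the family do not meet far away. -/
lemma par_inj {s₀ s₁ s₂ : ℕ} (Q : ℝ) (h0 : (s₀ : ℝ) ≤ Q) (h1 : 2 * (s₁ : ℝ) ≤ Q)
    (hQ1 : 1 ≤ Q) (b c : Fin s₀ × Fin s₁ × Fin s₂) (x : ℝ) (hx : Q ≤ x)
    (h : (parP b).eval x = (parP c).eval x) : b = c := by
  rw [parP_eval, parP_eval] at h
  obtain ⟨b0, b1, b2⟩ := b
  obtain ⟨c0, c1, c2⟩ := c
  simp only at h
  have hx1 : 1 ≤ x := le_trans hQ1 hx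
  have hb0 : ((b0 : ℕ) : ℝ) + 1 ≤ s₀ := by exact_mod_cast b0.2
  have hc0 : ((c0 : ℕ) : ℝ) + 1 ≤ s₀ := by exact_mod_cast c0.2
  have hb1 : ((b1 : ℕ) : ℝ) + 1 ≤ s₁ := by exact_mod_cast b1.2
  have hc1 : ((c1 : ℕ) : ℝ) + 1 ≤ s₁ := by exact_mod_cast c1.2
  have hb0' : (0 : ℝ) ≤ ((b0 : ℕ) : ℝ) := by positivity
  have hc0' : (0 : ℝ) ≤ ((c0 : ℕ) : ℝ) := by positivity
  have hb1' : (0 : ℝ) ≤ ((b1 : ℕ) : ℝ) := by positivity
  have hc1' : (0 : ℝ) ≤ ((c1 : ℕ) : ℝ) := by positivity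
  have e2 : (b2 : ℕ) = (c2 : ℕ) := by
    by_contra hne
    have aux : ∀ (p0 p1 p2 q0 q1 q2 : ℕ), (p0 : ℝ) + 1 ≤ s₀ → (q0 : ℝ) + 1 ≤ s₀ →
        (p1 : ℝ) + 1 ≤ s₁ → (q1 : ℝ) + 1 ≤ s₁ → p2 < q2 →
        ((p0 : ℝ) + 1) + ((p1 : ℝ) + 1) * x + ((p2 : ℝ) + 1) * x ^ 2 =
        ((q0 : ℝ) + 1) + ((q1 : ℝ) + 1) * x + ((q2 : ℝ) + 1) * x ^ 2 → False := by
      intro p0 p1 p2 q0 q1 q2 hp0 hq0 hp1 hq1 hlt he
      have h2 : (p2 : ℝ) + 1 ≤ q2 := by exact_mod_cast hlt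
      have h3 : x ^ 2 ≤ ((q2 : ℝ) - p2) * x ^ 2 := by
        have : (1 : ℝ) ≤ (q2 : ℝ) - p2 := by linarith
        have h4 := mul_le_mul_of_nonneg_right this (by positivity : (0 : ℝ) ≤ x ^ 2)
        linarith
      have h5 : ((p1 : ℝ) - q1) * x ≤ ((s₁ : ℝ) - 1) * x := by
        apply mul_le_mul_of_nonneg_right _ (by linarith)
        have : (0 : ℝ) ≤ q1 := by positivity
        linarith
      have h6 : (p0 : ℝ) - q0 ≤ s₀ - 1 := by
        have : (0 : ℝ) ≤ q0 := by positivity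
        linarith
      have h7 : x ^ 2 ≤ (s₀ : ℝ) - 1 + ((s₁ : ℝ) - 1) * x := by nlinarith
      have h8 : (s₁ : ℝ) * x ≤ x / 2 * x := by
        apply mul_le_mul_of_nonneg_right _ (by linarith)
        linarith
      have h9 : (s₀ : ℝ) ≤ x := by linarith
      nlinarith
    rcases lt_or_gt_of_ne hne with hlt | hlt
    · exact aux b0 b1 b2 c0 c1 c2 hb0 hc0 hb1 hc1 hlt h
    · exact aux c0 c1 c2 b0 b1 b2 hc0 hb0 hc1 hb1 hlt h.symm
  have e1 : (b1 : ℕ) = (c1 : ℕ) := by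
    by_contra hne
    rw [e2] at h
    have aux : ∀ (p0 p1 q0 q1 : ℕ), (p0 : ℝ) + 1 ≤ s₀ → (q0 : ℝ) + 1 ≤ s₀ → p1 < q1 →
        ((p0 : ℝ) + 1) + ((p1 : ℝ) + 1) * x = ((q0 : ℝ) + 1) + ((q1 : ℝ) + 1) * x → False := by
      intro p0 p1 q0 q1 hp0 hq0 hlt he
      have h2 : (p1 : ℝ) + 1 ≤ q1 := by exact_mod_cast hlt
      have h3 : x ≤ ((q1 : ℝ) - p1) * x := by
        have : (1 : ℝ) ≤ (q1 : ℝ) - p1 := by linarith
        have h4 := mul_le_mul_of_nonneg_right this (by linarith : (0 : ℝ) ≤ x)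
        linarith
      have h6 : (p0 : ℝ) - q0 ≤ s₀ - 1 := by
        have : (0 : ℝ) ≤ q0 := by positivity
        linarith
      nlinarith
    rcases lt_or_gt_of_ne hne with hlt | hlt
    · exact aux b0 b1 c0 c1 hb0 hc0 hlt (by linarith)
    · exact aux c0 c1 b0 b1 hc0 hb0 hlt (by linarith)
  have e0 : (b0 : ℕ) = (c0 : ℕ) := by
    rw [e2, e1] at h
    have : ((b0 : ℕ) : ℝ) = ((c0 : ℕ) : ℝ) := by linarith
    exact_mod_cast this
  exact Prod.ext (Fin.ext e0) (Prod.ext (Fin.ext e1) (Fin.ext e2))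

/-- Lagrange extrapolation from the nodes `0, …, d - 1` along a parabola. -/
lemma lagrange_par {s₀ s₁ s₂ : ℕ} (d : ℕ) (b : Fin s₀ × Fin s₁ × Fin s₂) (i j : ℕ)
    (hij : i + 2 * j < d) (x : ℝ) :
    x ^ i * ((parP b).eval x) ^ j =
      ∑ l : Fin d, (Lagrange.basis Finset.univ (fun l : Fin d => ((l : ℕ) : ℝ)) l).eval x *
        (((l : ℕ) : ℝ) ^ i * ((par b l : ℕ) : ℝ) ^ j) := by
  set v : Fin d → ℝ := fun l => ((l : ℕ) : ℝ) with hv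
  have hvs : Set.InjOn v ((Finset.univ : Finset (Fin d)) : Set (Fin d)) := by
    intro a _ c _ hac
    have : ((a : ℕ) : ℝ) = ((c : ℕ) : ℝ) := hac
    exact Fin.ext (by exact_mod_cast this)
  set p : ℝ[X] := X ^ i * (parP b) ^ j with hp
  have hdeg : p.degree < (Finset.univ : Finset (Fin d)).card := by
    rw [Finset.card_univ, Fintype.card_fin]
    refine lt_of_le_of_lt degree_le_natDegree ?_
    have h1 : p.natDegree ≤ i + 2 * j := by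
      rw [hp]
      refine le_trans natDegree_mul_le ?_
      have h2 : ((parP b) ^ j).natDegree ≤ j * (parP b).natDegree := natDegree_pow_le
      have h3 := parP_natDegree b
      have h4 : ((X : ℝ[X]) ^ i).natDegree ≤ i := natDegree_X_pow_le i
      have h5 : j * (parP b).natDegree ≤ j * 2 := Nat.mul_le_mul_left j h3
      omega
    exact_mod_cast lt_of_le_of_lt h1 hij
  have h1 := Lagrange.eq_interpolate hvs hdeg
  have h2 : p.eval x = x ^ i * ((parP b).eval x) ^ j := by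
    rw [hp, eval_mul, eval_pow, eval_X, eval_pow]
  rw [← h2, h1, Lagrange.interpolate_apply, eval_finsetSum]
  apply Finset.sum_congr rfl
  intro l _
  rw [eval_mul, eval_C, hp, eval_mul, eval_pow, eval_X, eval_pow]
  simp only [hv]
  rw [parP_eval_nat]
  ring

end Pool.Agent.H746R4.Tau
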