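import Mathlib

set_option autoImplicit false

namespace Pool.Agent.H746R4.Tau

open Polynomial Finset Filter Topology

/-- The number of sign variations is smaller than the number of monomials. -/
lemma signVariations_lt (p : ℝ[X]) (hp : p ≠ 0) : p.signVariations < p.support.card := by
  induction h : p.support.card using Nat.strong_induction_on generalizing p with
  | _ n ih =>
    subst h
    by_cases h0 : p.eraseLead = 0
    · have h1 : p = monomial p.natDegree p.leadingCoeff := by
        conv_lhs => rw [← p.eraseLead_add_monomial_natDegree_leadingCoeff]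
        rw [h0, zero_add]
      rw [h1, signVariations_monomial, ← h1]
      exact Finset.card_pos.mpr (by simpa using hp)
    · have h1 : p.eraseLead.support.card < p.support.card := eraseLead_support_card_lt hp
      have h2 := ih _ h1 p.eraseLead h0 rfl
      have h3 := signVariations_le_eraseLead_succ (P := p)
      omega

/-- A nonzero real polynomial has fewer distinct positive roots than monomials. -/
lemma card_pos_roots_lt (p : ℝ[X]) (hp : p ≠ 0) (T : Finset ℝ)
    (hT : ∀ x ∈ T, 0 < x ∧ p.eval x = 0) : T.card < p.support.card := by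
  refine lt_of_le_of_lt ?_ (signVariations_lt p hp)
  refine le_trans ?_ (roots_countP_pos_le_signVariations (P := p))
  rw [Multiset.countP_eq_card_filter]
  have h1 : T.val ≤ p.roots.filter (fun x => 0 < x) := by
    rw [Multiset.le_iff_subset T.nodup]
    intro x hx
    rw [Multiset.mem_filter, mem_roots hp]
    exact ⟨(hT x hx).2, (hT x hx).1⟩
  have h2 := Multiset.card_le_card h1
  simpa using h2

/-- Generalised Vandermonde interpolation: prescribed values at distinct positive points. -/
lemma exists_coeff {W : Type*} [Fintype W] [DecidableEq W] (e : W → ℕ) (he : Function.Injective e)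
    {M : ℕ} (hM : Fintype.card W = M) (t : Fin M → ℝ) (ht0 : ∀ k, 0 < t k)
    (ht : Function.Injective t) (v : Fin M → ℝ) :
    ∃ κ : W → ℝ, ∀ k, ∑ w, κ w * t k ^ e w = v k := by
  let L : (W → ℝ) →ₗ[ℝ] (Fin M → ℝ) :=
    { toFun := fun κ k => ∑ w, κ w * t k ^ e w
      map_add' := by
        intro a b
        funext k
        simp [add_mul, Finset.sum_add_distrib]
      map_smul' := by
        intro c a
        funext k
        simp [Finset.mul_sum, mul_assoc] }
  have hinj : Function.Injective L := by
    rw [injective_iff_map_eq_zero]
    intro κ hκ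
    by_contra hne
    set p : ℝ[X] := ∑ w, monomial (e w) (κ w) with hp
    have hcoeff : ∀ w, p.coeff (e w) = κ w := by
      intro w
      rw [hp, finsetSum_coeff, Finset.sum_eq_single w]
      · simp
      · intro w' _ hw'
        rw [coeff_monomial, if_neg (fun h => hw' (he h))]
      · intro h
        exact absurd (Finset.mem_univ w) h
    have hp0 : p ≠ 0 := by
      intro h
      apply hne
      funext w
      rw [← hcoeff w, h]
      simp
    have hsupp : p.support.card ≤ M := by
      have h1 : p.support ⊆ Finset.univ.image e := by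
        intro n hn
        by_contra hcon
        apply (mem_support_iff.mp hn)
        rw [hp, finsetSum_coeff]
        apply Finset.sum_eq_zero
        intro w _
        rw [coeff_monomial, if_neg]
        intro h
        apply hcon
        rw [← h]
        exact Finset.mem_image_of_mem e (Finset.mem_univ w)
      calc p.support.card ≤ (Finset.univ.image e).card := Finset.card_le_card h1
        _ ≤ Finset.univ.card := Finset.card_image_le
        _ = M := by rw [Finset.card_univ, hM]
    have h2 := card_pos_roots_lt p hp0 (Finset.univ.image t) (by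
      intro x hx
      obtain ⟨k, _, rfl⟩ := Finset.mem_image.mp hx
      refine ⟨ht0 k, ?_⟩
      have h3 := congrFun hκ k
      simp only [L, LinearMap.coe_mk, AddHom.coe_mk, Pi.zero_apply] at h3
      rw [hp, eval_finsetSum]
      simpa [eval_monomial] using h3)
    rw [Finset.card_image_of_injective _ ht, Finset.card_univ, Fintype.card_fin] at h2
    omega
  have hsurj : Function.Surjective L := by
    have hf : Module.finrank ℝ (W → ℝ) = Module.finrank ℝ (Fin M → ℝ) := by
      simp [hM]
    exact (LinearMap.injective_iff_surjective_of_finrank_eq_finrank hf).mp hinj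
  obtain ⟨κ, hκ⟩ := hsurj v
  exact ⟨κ, fun k => congrFun hκ k⟩

/-- Counting roots by disjoint intervals with sign changes. -/
lemma card_le_roots {κ : Type*} [Fintype κ] [DecidableEq κ] (f : ℝ[X]) (a c : κ → ℝ)
    (hac : ∀ i, a i < c i) (hdis : ∀ i j, i ≠ j → c i ≤ a j ∨ c j ≤ a i)
    (hs : ∀ i, f.eval (a i) * f.eval (c i) < 0) :
    Fintype.card κ ≤ f.roots.toFinset.card := by
  have hroot : ∀ i, ∃ r, a i < r ∧ r < c i ∧ f.eval r = 0 := by
    intro i
    have hcont : ContinuousOn (fun x => f.eval x) (Set.Icc (a i) (c i)) :=
      f.continuous.continuousOn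
    rcases mul_neg_iff.mp (hs i) with h | h
    · have := intermediate_value_Ioo' (hac i).le hcont
      obtain ⟨r, hr, hr0⟩ := this ⟨h.2, h.1⟩
      exact ⟨r, hr.1, hr.2, hr0⟩
    · have := intermediate_value_Ioo (hac i).le hcont
      obtain ⟨r, hr, hr0⟩ := this ⟨h.1, h.2⟩
      exact ⟨r, hr.1, hr.2, hr0⟩
  choose r hr1 hr2 hr3 using hroot
  have hinj : Function.Injective r := by
    intro i j hij
    by_contra hne
    rcases hdis i j hne with h | h
    · have := hr2 i
      have := hr1 j
      rw [hij] at *
      linarith
    · have := hr2 j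
      have := hr1 i
      rw [hij] at *
      linarith
  by_cases hf : f = 0
  · rcases isEmpty_or_nonempty κ with h | ⟨⟨i⟩⟩
    · simp
    · have := hs i
      simp [hf] at this
  · have : (Finset.univ.image r).card ≤ f.roots.toFinset.card := by
      apply Finset.card_le_card
      intro x hx
      obtain ⟨i, _, rfl⟩ := Finset.mem_image.mp hx
      rw [Multiset.mem_toFinset, mem_roots hf]
      exact hr3 i
    rwa [Finset.card_image_of_injective _ hinj, Finset.card_univ] at this

/-- Domination: in a sum of large powers the largest base wins. -/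
lemma eventually_sign {ι : Type*} [Fintype ι] [DecidableEq ι] (A G : ι → ℝ) (b : ι)
    (hA : ∀ c, 0 < A c) (hb : ∀ c, c ≠ b → A c < A b) (σ : ℝ) (hG : 0 < σ * G b) :
    ∀ᶠ F : ℕ in atTop, 0 < σ * ∑ c, A c ^ F * G c := by
  have hlim : Tendsto (fun F : ℕ => ∑ c, (A c / A b) ^ F * G c) atTop (𝓝 (G b)) := by
    have h1 : ∀ c ∈ (Finset.univ : Finset ι),
        Tendsto (fun F : ℕ => (A c / A b) ^ F * G c) atTop (𝓝 (if c = b then G b else 0)) := by
      intro c _
      by_cases hc : c = b
      · subst hc
        have h2 : A c / A c = 1 := div_self (hA c).ne'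
        simp [h2]
      · simp only [hc, if_false]
        have h2 : Tendsto (fun F : ℕ => (A c / A b) ^ F) atTop (𝓝 0) := by
          apply tendsto_pow_atTop_nhds_zero_of_lt_one
          · exact (div_pos (hA c) (hA b)).le
          · rw [div_lt_one (hA b)]
            exact hb c hc
        simpa using h2.mul_const (G c)
    have h3 := tendsto_finsetSum (Finset.univ : Finset ι) h1
    simpa using h3
  have h4 : ∀ᶠ F : ℕ in atTop, 0 < σ * ∑ c, (A c / A b) ^ F * G c :=
    (hlim.const_mul σ).eventually (lt_mem_nhds hG)
  filter_upwards [h4] with F hF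
  have h5 : ∑ c, A c ^ F * G c = A b ^ F * ∑ c, (A c / A b) ^ F * G c := by
    rw [Finset.mul_sum]
    apply Finset.sum_congr rfl
    intro c _
    rw [div_pow]
    have : A b ^ F ≠ 0 := pow_ne_zero _ (hA b).ne'
    field_simp
  rw [h5]
  have h6 : 0 < A b ^ F := pow_pos (hA b) F
  have : σ * (A b ^ F * ∑ c, (A c / A b) ^ F * G c) =
      A b ^ F * (σ * ∑ c, (A c / A b) ^ F * G c) := by ring
  rw [this]
  exact mul_pos h6 hF

end Pool.Agent.H746R4.Tau
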