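import Pool.Agent.H746R4.Tau.Rep

set_option autoImplicit false

namespace Pool.Agent.H746R4.Tau

open Polynomial Finset Filter Topology

/-- The two-parameter family. -/
theorem family₂ (s e : ℕ) (hs : 1 ≤ s) (he : 1 ≤ e) :
    ∃ F : Fin (192 * s * e ^ 3) → Fin 2 → ℝ[X],
      (∀ i, (F i 0).support.card ≤ 2 * e ^ 2 ∧ (F i 1).support.card ≤ 4 * s ^ 2 * e) ∧
      64 * s ^ 3 * e ^ 5 ≤ (∑ i, ∏ j, F i j).roots.toFinset.card := by
  have h := construction (4 * e) (2 * e) e (16 * s * e ^ 2) (4 * s * e) s (48 * s * e ^ 2)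
    (by positivity) (by positivity)
    (by
      intro i hi j hj
      omega)
    (by
      intro l hl
      have h1 : 4 * s * e * l < 4 * s * e * (4 * e) :=
        Nat.mul_lt_mul_of_pos_left hl (by positivity)
      have h2 : s * l ^ 2 ≤ s * (4 * e) ^ 2 :=
        Nat.mul_le_mul_left _ (Nat.pow_le_pow_left hl.le 2)
      have h3 : 4 * s * e * (4 * e) = 16 * s * e ^ 2 := by ring
      have h4 : s * (4 * e) ^ 2 = 16 * s * e ^ 2 := by ring
      have h5 : 48 * s * e ^ 2 = 16 * s * e ^ 2 + 16 * s * e ^ 2 + 16 * s * e ^ 2 := by ring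
      omega)
  rw [show 4 * e * (48 * s * e ^ 2) = 192 * s * e ^ 3 by ring] at h
  obtain ⟨F, hF, hroots⟩ := h
  refine ⟨F, ?_, ?_⟩
  · intro i
    refine ⟨(hF i).1.trans (le_of_eq (by ring)), (hF i).2.trans (le_of_eq (by ring))⟩
  · refine le_trans ?_ hroots
    have h1 : 16 * s * e ^ 2 * (4 * s * e) * s = 64 * s ^ 3 * e ^ 3 := by ring
    have h2 : 2 * e * e = 2 * e ^ 2 := by ring
    rw [h1, h2]
    have h3 : 64 * s ^ 3 * e ^ 5 = 64 * s ^ 3 * e ^ 3 * e ^ 2 := by ring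
    rw [h3]
    apply Nat.mul_le_mul_left
    have : 1 ≤ e ^ 2 := Nat.one_le_pow _ _ he
    omega

theorem family (r : ℕ) (hr : 1 ≤ r) :
    ∃ F : Fin (192 * r ^ 7) → Fin 2 → ℝ[X],
      (∀ i j, (F i j).support.card ≤ 4 * r ^ 4) ∧
      64 * r ^ 13 ≤ (∑ i, ∏ j, F i j).roots.toFinset.card := by
  have h := family₂ r (r ^ 2) hr (Nat.one_le_pow _ _ hr)
  rw [show 192 * r * (r ^ 2) ^ 3 = 192 * r ^ 7 by ring] at h
  obtain ⟨F, hF, hroots⟩ := h
  refine ⟨F, ?_, le_trans (le_of_eq (by ring)) hroots⟩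
  intro i j
  fin_cases j
  · refine (hF i).1.trans ?_
    have : 2 * (r ^ 2) ^ 2 = 2 * r ^ 4 := by ring
    omega
  · refine (hF i).2.trans (le_of_eq (by ring))

theorem exponent (c C : ℝ)
    (h : ∀ (k t : ℕ) (F : Fin k → Fin 2 → ℝ[X]), 0 < k → 0 < t →
      (∀ i j, (F i j).support.card ≤ t) → (∑ i, ∏ j, F i j) ≠ 0 →
      ((∑ i, ∏ j, F i j).roots.toFinset.card : ℝ) ≤ C * ((k * 2 * t : ℕ) : ℝ) ^ c) :
    13 / 11 ≤ c := by
  by_contra hc
  push Not at hc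
  have hpos : 0 < 13 - 11 * c := by linarith
  have hb : ∀ r : ℕ, 1 ≤ r → (r : ℝ) ^ (13 - 11 * c) ≤ C * (1536 : ℝ) ^ c / 64 := by
    intro r hr
    obtain ⟨F, hF, hroots⟩ := family r hr
    have hr0 : (0 : ℝ) < r := by exact_mod_cast hr
    have hne : (∑ i, ∏ j, F i j) ≠ 0 := by
      intro h0
      rw [h0] at hroots
      simp at hroots
      omega
    have h1 := h (192 * r ^ 7) (4 * r ^ 4) F (by positivity) (by positivity) hF hne
    have h2 : (((64 * r ^ 13 : ℕ)) : ℝ) ≤ C * ((192 * r ^ 7 * 2 * (4 * r ^ 4) : ℕ) : ℝ) ^ c :=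
      le_trans (by exact_mod_cast hroots) h1
    have h3 : ((192 * r ^ 7 * 2 * (4 * r ^ 4) : ℕ) : ℝ) = 1536 * (r : ℝ) ^ (11 : ℝ) := by
      rw [show (11 : ℝ) = ((11 : ℕ) : ℝ) by norm_num, Real.rpow_natCast]
      push_cast
      ring
    have h4 : (((64 * r ^ 13 : ℕ)) : ℝ) = 64 * (r : ℝ) ^ (13 : ℝ) := by
      rw [show (13 : ℝ) = ((13 : ℕ) : ℝ) by norm_num, Real.rpow_natCast]
      push_cast
      ring
    rw [h3, h4, Real.mul_rpow (by norm_num) (by positivity), ← Real.rpow_mul hr0.le] at h2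
    have h5 : (r : ℝ) ^ (13 : ℝ) = (r : ℝ) ^ (13 - 11 * c) * (r : ℝ) ^ (11 * c) := by
      rw [← Real.rpow_add hr0]
      congr 1
      ring
    rw [h5] at h2
    have h6 : 0 < (r : ℝ) ^ (11 * c) := Real.rpow_pos_of_pos hr0 _
    have h7 : (r : ℝ) ^ (13 - 11 * c) * 64 * (r : ℝ) ^ (11 * c) ≤
        C * (1536 : ℝ) ^ c * (r : ℝ) ^ (11 * c) := by linarith
    have h8 := le_of_mul_le_mul_right h7 h6
    rw [le_div_iff₀ (by norm_num)]
    exact h8
  have hlim : Tendsto (fun r : ℕ => (r : ℝ) ^ (13 - 11 * c)) atTop atTop :=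
    (tendsto_rpow_atTop hpos).comp tendsto_natCast_atTop_atTop
  obtain ⟨r, hr1, hr2⟩ := ((hlim.eventually_gt_atTop (C * (1536 : ℝ) ^ c / 64)).and
    (eventually_ge_atTop 1)).exists
  exact absurd (hb r hr2) (not_le.mpr hr1)

end Pool.Agent.H746R4.Tau
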