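import Pool.Agent.H746R4.Tau.Curve

set_option autoImplicit false

namespace Pool.Agent.H746R4.Tau

open Polynomial Finset Filter Topology

lemma card_support_sum_le {κ : Type*} (S : Finset κ) (c : κ → ℝ) (e : κ → ℕ) :
    (∑ i ∈ S, C (c i) * X ^ e i : ℝ[X]).support.card ≤ S.card := by
  classical
  have h1 : (∑ i ∈ S, C (c i) * X ^ e i : ℝ[X]).support ⊆ S.image e := by
    intro n hn
    by_contra hcon
    apply mem_support_iff.mp hn
    rw [finsetSum_coeff]
    apply Finset.sum_eq_zero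
    intro i hi
    rw [coeff_C_mul, coeff_X_pow, if_neg, mul_zero]
    intro h
    exact hcon (h ▸ Finset.mem_image_of_mem e hi)
  exact (Finset.card_le_card h1).trans Finset.card_image_le

/-- The main construction. -/
theorem construction (d I J s₀ s₁ s₂ Y : ℕ) (hI : 0 < I) (hJ : 0 < J)
    (hIJ : ∀ i < I, ∀ j < J, i + 2 * j < d)
    (hY : ∀ l < d, s₀ + s₁ * l + s₂ * l ^ 2 < Y) :
    ∃ F : Fin (d * Y) → Fin 2 → ℝ[X],
      (∀ i, (F i 0).support.card ≤ I * J ∧ (F i 1).support.card ≤ s₁ * s₂) ∧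
      s₀ * s₁ * s₂ * (I * J - 1) ≤ (∑ i, ∏ j, F i j).roots.toFinset.card := by
  classical
  set N : ℕ := d + 3 with hN
  set Q : ℝ := (s₀ : ℝ) + 2 * s₁ + 1 with hQ
  have hQ1 : 1 ≤ Q := by
    have : (0 : ℝ) ≤ s₀ := by positivity
    have : (0 : ℝ) ≤ s₁ := by positivity
    rw [hQ]; linarith
  have hQs0 : (s₀ : ℝ) ≤ Q := by
    have : (0 : ℝ) ≤ s₁ := by positivity
    rw [hQ]; linarith
  have hQs1 : 2 * (s₁ : ℝ) ≤ Q := by
    have : (0 : ℝ) ≤ s₀ := by positivity
    rw [hQ]; linarith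
  have hQ0 : 0 < Q := by linarith
  set η : ℝ := (Q ^ N)⁻¹ with hη
  have hη0 : 0 < η := inv_pos.mpr (pow_pos hQ0 N)
  choose Xb hXb1 hXb2 using fun b : Fin s₀ × Fin s₁ × Fin s₂ =>
    exists_point N (by omega) Q hQ1 b
  have hXpos : ∀ b, 0 < Xb b := fun b => lt_of_lt_of_le hQ0 (hXb1 b)
  have hXinj : Function.Injective Xb := by
    intro b c hbc
    apply par_inj Q hQs0 hQs1 hQ1 b c (Xb b) (hXb1 b)
    rw [hXb2 b, hbc, hXb2 c]
  -- exponents
  set e : Fin I × Fin J → ℕ := fun w => (w.1 : ℕ) + N * (w.2 : ℕ) with he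
  have hlt : ∀ w : Fin I × Fin J, (w.1 : ℕ) < N := by
    intro w
    have := hIJ w.1 w.1.2 w.2 w.2.2
    omega
  have heinj : Function.Injective e := by
    intro w w' h
    simp only [he] at h
    have h1 := hlt w
    have h2 := hlt w'
    have h3 : (w.1 : ℕ) = (w'.1 : ℕ) := by
      have h4 := congrArg (· % N) h
      simp only [Nat.add_mul_mod_self_left] at h4
      rwa [Nat.mod_eq_of_lt h1, Nat.mod_eq_of_lt h2] at h4
    have h5 : (w.2 : ℕ) = (w'.2 : ℕ) := by
      rw [h3] at h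
      have h6 : N * (w.2 : ℕ) = N * (w'.2 : ℕ) := by omega
      exact Nat.eq_of_mul_eq_mul_left (by omega) h6
    exact Prod.ext (Fin.ext h3) (Fin.ext h5)
  have hcardW : Fintype.card (Fin I × Fin J) = (I * J - 1) + 1 := by
    simp only [Fintype.card_prod, Fintype.card_fin]
    have : 0 < I * J := Nat.mul_pos hI hJ
    omega
  obtain ⟨κ, α, n, hroots⟩ := exists_dilations Xb hXpos hXinj e heinj (I * J - 1) hcardW
  -- the factors
  set Lb : Fin d → ℝ[X] := fun l =>
    Lagrange.basis Finset.univ (fun l : Fin d => ((l : ℕ) : ℝ)) l with hLb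
  let G : Fin d → Fin Y → ℝ[X] := fun l y =>
    ∑ w : Fin I × Fin J, C (κ w * (η ^ (w.2 : ℕ))⁻¹ *
      ((((l : ℕ) : ℝ)) ^ (w.1 : ℕ) * (((y : ℕ) : ℝ)) ^ (w.2 : ℕ))) * X ^ e w
  let H : Fin d → Fin Y → ℝ[X] := fun l y =>
    ∑ b ∈ Finset.univ.filter (fun b : Fin s₀ × Fin s₁ × Fin s₂ => par b (l : ℕ) = (y : ℕ)),
      C (α b * (Lb l).eval (Xb b)) * X ^ n b
  have hpar : ∀ (b : Fin s₀ × Fin s₁ × Fin s₂) (l : Fin d), par b (l : ℕ) < Y := by
    intro b l
    refine lt_of_le_of_lt ?_ (hY l l.2)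
    simp only [par]
    have h0 : (b.1 : ℕ) + 1 ≤ s₀ := b.1.2
    have h1 : ((b.2.1 : ℕ) + 1) * (l : ℕ) ≤ s₁ * (l : ℕ) := Nat.mul_le_mul_right _ b.2.1.2
    have h2 : ((b.2.2 : ℕ) + 1) * (l : ℕ) ^ 2 ≤ s₂ * (l : ℕ) ^ 2 := Nat.mul_le_mul_right _ b.2.2.2
    omega
  -- key identity
  have hkey : ∑ l : Fin d, ∑ y : Fin Y, G l y * H l y =
      ∑ b, C (α b) * X ^ n b * ∑ w, C (κ w * Xb b ^ e w) * X ^ e w := by
    have h1 : ∀ l : Fin d, ∑ y : Fin Y, G l y * H l y =
        ∑ b : Fin s₀ × Fin s₁ × Fin s₂,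
          G l ⟨par b (l : ℕ), hpar b l⟩ * (C (α b * (Lb l).eval (Xb b)) * X ^ n b) := by
      intro l
      have h2 : ∀ y : Fin Y, G l y * H l y = ∑ b : Fin s₀ × Fin s₁ × Fin s₂,
          if y = ⟨par b (l : ℕ), hpar b l⟩ then
            G l y * (C (α b * (Lb l).eval (Xb b)) * X ^ n b) else 0 := by
        intro y
        simp only [H]
        rw [Finset.mul_sum, Finset.sum_filter]
        apply Finset.sum_congr rfl
        intro b _
        have h3 : (par b (l : ℕ) = (y : ℕ)) ↔ (y = ⟨par b (l : ℕ), hpar b l⟩) := by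
          rw [Fin.ext_iff]
          exact eq_comm
        by_cases h4 : par b (l : ℕ) = (y : ℕ)
        · rw [if_pos h4, if_pos (h3.mp h4)]
        · rw [if_neg h4, if_neg (fun h => h4 (h3.mpr h))]
      rw [Finset.sum_congr rfl fun y _ => h2 y, Finset.sum_comm]
      apply Finset.sum_congr rfl
      intro b _
      rw [Finset.sum_ite_eq' Finset.univ]
      simp
    rw [Finset.sum_congr rfl fun l _ => h1 l, Finset.sum_comm]
    apply Finset.sum_congr rfl
    intro b _
    have h5 : ∀ l : Fin d, G l ⟨par b (l : ℕ), hpar b l⟩ *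
        (C (α b * (Lb l).eval (Xb b)) * X ^ n b) =
        C (α b) * X ^ n b * ∑ w : Fin I × Fin J, C (κ w * (η ^ (w.2 : ℕ))⁻¹ *
          ((Lb l).eval (Xb b) * ((((l : ℕ) : ℝ)) ^ (w.1 : ℕ) *
            (((par b (l : ℕ) : ℕ) : ℝ)) ^ (w.2 : ℕ)))) * X ^ e w := by
      intro l
      simp only [G]
      rw [mul_comm, C_mul, mul_assoc (C (α b)), mul_comm (C ((Lb l).eval (Xb b))), ← mul_assoc,
        mul_assoc, Finset.mul_sum]
      congr 1
      apply Finset.sum_congr rfl
      intro w _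
      rw [← mul_assoc, ← C_mul]
      congr 2
      ring
    rw [Finset.sum_congr rfl fun l _ => h5 l, ← Finset.mul_sum, Finset.sum_comm]
    congr 1
    apply Finset.sum_congr rfl
    intro w _
    rw [← Finset.sum_mul]
    congr 1
    rw [← map_sum, ← Finset.mul_sum]
    congr 1
    have h6 := lagrange_par d b (w.1 : ℕ) (w.2 : ℕ) (hIJ _ w.1.2 _ w.2.2) (Xb b)
    rw [hXb2 b] at h6
    rw [← hη] at h6
    have h8 : Xb b ^ e w = Xb b ^ (w.1 : ℕ) * (Xb b ^ N) ^ (w.2 : ℕ) := by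
      rw [show e w = (w.1 : ℕ) + N * (w.2 : ℕ) from rfl, pow_add (Xb b) (w.1 : ℕ), pow_mul]
    rw [← h6, mul_pow, h8, mul_assoc]
    congr 1
    have h7 : η ^ (w.2 : ℕ) ≠ 0 := pow_ne_zero _ hη0.ne'
    field_simp
  refine ⟨fun i => ![G (finProdFinEquiv.symm i).1 (finProdFinEquiv.symm i).2,
    H (finProdFinEquiv.symm i).1 (finProdFinEquiv.symm i).2], ?_, ?_⟩
  · intro i
    constructor
    · simp only [Matrix.cons_val_zero]
      refine (card_support_sum_le _ _ _).trans ?_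
      rw [Finset.card_univ]
      simp
    · simp only [Matrix.cons_val_one, Matrix.cons_val_fin_one]
      refine (card_support_sum_le _ _ _).trans ?_
      set l := (finProdFinEquiv.symm i).1
      set y := (finProdFinEquiv.symm i).2
      have h1 : (Finset.univ.filter
          (fun b : Fin s₀ × Fin s₁ × Fin s₂ => par b (l : ℕ) = (y : ℕ))).card ≤
          (Finset.univ : Finset (Fin s₁ × Fin s₂)).card := by
        apply Finset.card_le_card_of_injOn (fun b => b.2)
        · intro b _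
          simp
        · intro b hb c hc hbc
          simp only [Finset.coe_filter, Finset.mem_univ, true_and, Set.mem_ofPred_eq] at hb hc
          simp only at hbc
          have h2 : par b (l : ℕ) = par c (l : ℕ) := by rw [hb, hc]
          simp only [par] at h2
          rw [hbc] at h2
          have h3 : (b.1 : ℕ) = (c.1 : ℕ) := by omega
          exact Prod.ext (Fin.ext h3) hbc
      refine h1.trans ?_
      simp
  · have h1 : (∑ i : Fin (d * Y), ∏ j : Fin 2, (![G (finProdFinEquiv.symm i).1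
        (finProdFinEquiv.symm i).2, H (finProdFinEquiv.symm i).1
        (finProdFinEquiv.symm i).2] : Fin 2 → ℝ[X]) j) =
        ∑ b, C (α b) * X ^ n b * ∑ w, C (κ w * Xb b ^ e w) * X ^ e w := by
      rw [← hkey, ← Fintype.sum_prod_type']
      apply Fintype.sum_equiv finProdFinEquiv.symm
      intro i
      rw [Fin.prod_univ_two]
      simp
    rw [h1]
    refine le_trans (le_of_eq ?_) hroots
    simp [mul_assoc]

end Pool.Agent.H746R4.Tau
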