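import Pool.Agent.H746R4.Tau.Dom

set_option autoImplicit false

namespace Pool.Agent.H746R4.Tau

open Polynomial Finset Filter Topology

/-- Dilated copies of one sparse polynomial: there are coefficients `κ` of one `W`-sparse
polynomial and weights such that the superposition of its dilations by the `X b` has the maximal
possible number of roots. -/
theorem exists_dilations {ι W : Type*} [Fintype ι] [DecidableEq ι] [Fintype W] [DecidableEq W]
    (X : ι → ℝ) (hX0 : ∀ b, 0 < X b) (hX : Function.Injective X)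
    (e : W → ℕ) (he : Function.Injective e) (m : ℕ) (hm : Fintype.card W = m + 1) :
    ∃ (κ : W → ℝ) (α : ι → ℝ) (n : ι → ℕ),
      Fintype.card ι * m ≤
        (∑ b, C (α b) * Polynomial.X ^ n b *
          ∑ w, C (κ w * X b ^ e w) * Polynomial.X ^ e w : ℝ[X]).roots.toFinset.card := by
  -- choice of θ
  have hθ : ∃ θ : ℝ, 1 < θ ∧ ∀ b c, X b < X c → θ * X b < X c := by
    have h1 : ∀ᶠ θ : ℝ in 𝓝[>] 1, ∀ b c, X b < X c → θ * X b < X c := by
      rw [eventually_all]
      intro b
      rw [eventually_all]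
      intro c
      by_cases hbc : X b < X c
      · have h2 : Tendsto (fun θ : ℝ => θ * X b) (𝓝[>] 1) (𝓝 (1 * X b)) :=
          ((continuous_id.mul continuous_const).tendsto 1).mono_left nhdsWithin_le_nhds
        rw [one_mul] at h2
        filter_upwards [h2.eventually (gt_mem_nhds hbc)] with θ hθ _
        exact hθ
      · exact Eventually.of_forall fun θ h => absurd h hbc
    have h3 : ∀ᶠ θ : ℝ in 𝓝[>] 1, 1 < θ := eventually_mem_nhdsWithin
    obtain ⟨θ, h4, h5⟩ := (h3.and h1).exists
    exact ⟨θ, h4, h5⟩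
  obtain ⟨θ, hθ1, hθ2⟩ := hθ
  -- sample points
  set t : Fin (m + 1) → ℝ := fun k => 1 + (θ - 1) * ((k : ℕ) + 1) / (m + 2) with ht
  have hm2 : (0 : ℝ) < m + 2 := by positivity
  have htmono : StrictMono t := by
    intro a b hab
    have h1 : ((a : ℕ) : ℝ) < ((b : ℕ) : ℝ) := by exact_mod_cast hab
    simp only [ht]
    have h2 : (θ - 1) * (((a : ℕ) : ℝ) + 1) < (θ - 1) * (((b : ℕ) : ℝ) + 1) :=
      mul_lt_mul_of_pos_left (by linarith) (by linarith)
    have h3 := div_lt_div_of_pos_right h2 hm2
    linarith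
  have ht1 : ∀ k, 1 < t k := by
    intro k
    simp only [ht]
    have : 0 < (θ - 1) * (((k : ℕ) : ℝ) + 1) / (m + 2) := by
      apply div_pos _ hm2
      apply mul_pos (by linarith) (by positivity)
    linarith
  have htθ : ∀ k, t k < θ := by
    intro k
    simp only [ht]
    have hk : ((k : ℕ) : ℝ) + 1 < m + 2 := by
      have : (k : ℕ) < m + 1 := k.2
      have h2 : ((k : ℕ) : ℝ) < m + 1 := by exact_mod_cast this
      linarith
    have : (θ - 1) * (((k : ℕ) : ℝ) + 1) / (m + 2) < θ - 1 := by
      rw [div_lt_iff₀ hm2]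
      exact mul_lt_mul_of_pos_left hk (by linarith)
    linarith
  obtain ⟨κ, hκ⟩ := exists_coeff e he hm t (fun k => by linarith [ht1 k]) htmono.injective
    (fun k => (-1) ^ (k : ℕ))
  -- weights
  set S : ι → Finset ι := fun b => Finset.univ.filter (fun c => X b < X c) with hS
  set n₀ : ι → ℕ := fun b => (S b).card with hn₀
  set α₀ : ι → ℝ := fun b => ∏ c ∈ S b, (X c / θ) with hα₀
  have hθ0 : (0 : ℝ) < θ := by linarith
  have hφ : ∀ (b : ι) (x : ℝ), α₀ b * x ^ n₀ b = ∏ c ∈ S b, (x * X c / θ) := by
    intro b x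
    simp only [hα₀, hn₀]
    rw [← Finset.prod_const, ← Finset.prod_mul_distrib]
    apply Finset.prod_congr rfl
    intro c _
    ring
  have hdom : ∀ (b : ι) (k : Fin (m + 1)) (c : ι), c ≠ b →
      α₀ c * (t k / X b) ^ n₀ c < α₀ b * (t k / X b) ^ n₀ b := by
    intro b k c hcb
    rw [hφ, hφ]
    set x := t k / X b with hx
    have hx0 : 0 < x := div_pos (by linarith [ht1 k]) (hX0 b)
    have hpos : ∀ c, 0 < x * X c / θ := fun c => div_pos (mul_pos hx0 (hX0 c)) hθ0
    have hbig : ∀ c ∈ S b, 1 < x * X c / θ := by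
      intro c hc
      have h1 : X b < X c := by simpa [hS] using hc
      have h2 := hθ2 b c h1
      rw [lt_div_iff₀ hθ0, one_mul, hx, div_mul_eq_mul_div, lt_div_iff₀ (hX0 b)]
      have h3 : X c < t k * X c := by
        have := mul_lt_mul_of_pos_right (ht1 k) (hX0 c)
        linarith
      linarith
    have hsmall : ∀ c, c ∉ S b → x * X c / θ < 1 := by
      intro c hc
      have h1 : X c ≤ X b := by simpa [hS] using hc
      rw [div_lt_one hθ0, hx, div_mul_eq_mul_div, div_lt_iff₀ (hX0 b)]
      calc t k * X c ≤ t k * X b := mul_le_mul_of_nonneg_left h1 (by linarith [ht1 k])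
        _ < θ * X b := mul_lt_mul_of_pos_right (htθ k) (hX0 b)
    rcases lt_or_gt_of_ne (fun h => hcb (hX h) : X c ≠ X b) with hlt | hgt
    · -- X c < X b, so S b ⊂ S c
      have hsub : S b ⊆ S c := by
        intro i hi
        simp only [hS, Finset.mem_filter, Finset.mem_univ, true_and] at hi ⊢
        linarith
      have hne : (S c \ S b).Nonempty := ⟨b, by simp [hS, hlt]⟩
      rw [← Finset.prod_sdiff hsub]
      have h1 : ∏ i ∈ S c \ S b, (x * X i / θ) < ∏ i ∈ S c \ S b, (1 : ℝ) := by
        apply Finset.prod_lt_prod_of_nonempty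
        · intro i _
          exact hpos i
        · intro i hi
          exact hsmall i (Finset.mem_sdiff.mp hi).2
        · exact hne
      rw [Finset.prod_const_one] at h1
      have h2 : 0 < ∏ i ∈ S b, (x * X i / θ) := Finset.prod_pos fun i _ => hpos i
      calc _ < 1 * ∏ i ∈ S b, (x * X i / θ) := mul_lt_mul_of_pos_right h1 h2
        _ = _ := one_mul _
    · have hsub : S c ⊆ S b := by
        intro i hi
        simp only [hS, Finset.mem_filter, Finset.mem_univ, true_and] at hi ⊢
        linarith
      have hne : (S b \ S c).Nonempty := ⟨c, by simp [hS, hgt]⟩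
      rw [← Finset.prod_sdiff hsub]
      have h1 : ∏ i ∈ S b \ S c, (1 : ℝ) < ∏ i ∈ S b \ S c, (x * X i / θ) := by
        apply Finset.prod_lt_prod_of_nonempty
        · intro i _
          exact one_pos
        · intro i hi
          exact hbig i (Finset.mem_sdiff.mp hi).1
        · exact hne
      rw [Finset.prod_const_one] at h1
      have h2 : 0 < ∏ i ∈ S c, (x * X i / θ) := Finset.prod_pos fun i _ => hpos i
      calc _ = 1 * ∏ i ∈ S c, (x * X i / θ) := (one_mul _).symm
        _ < _ := mul_lt_mul_of_pos_right h1 h2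
  have hα₀pos : ∀ b, 0 < α₀ b := fun b => Finset.prod_pos fun c _ => div_pos (hX0 c) hθ0
  -- choose F
  have hev : ∀ᶠ F : ℕ in atTop, ∀ (b : ι) (k : Fin (m + 1)),
      0 < (-1 : ℝ) ^ (k : ℕ) * ∑ c, (α₀ c * (t k / X b) ^ n₀ c) ^ F *
        ∑ w, κ w * X c ^ e w * (t k / X b) ^ e w := by
    rw [eventually_all]
    intro b
    rw [eventually_all]
    intro k
    apply eventually_sign (fun c => α₀ c * (t k / X b) ^ n₀ c)
      (fun c => ∑ w, κ w * X c ^ e w * (t k / X b) ^ e w) b
    · intro c
      exact mul_pos (hα₀pos c) (pow_pos (div_pos (by linarith [ht1 k]) (hX0 b)) _)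
    · exact hdom b k
    · have h1 : ∑ w, κ w * X b ^ e w * (t k / X b) ^ e w = (-1) ^ (k : ℕ) := by
        rw [← hκ k]
        apply Finset.sum_congr rfl
        intro w _
        rw [mul_assoc, ← mul_pow, mul_div_cancel₀ _ (hX0 b).ne']
      simp only [h1]
      rw [← pow_add, ← two_mul, pow_mul]
      simp
  obtain ⟨F, hF⟩ := hev.exists
  refine ⟨κ, fun b => α₀ b ^ F, fun b => n₀ b * F, ?_⟩
  set f : ℝ[X] := ∑ b, C (α₀ b ^ F) * Polynomial.X ^ (n₀ b * F) *
          ∑ w, C (κ w * X b ^ e w) * Polynomial.X ^ e w with hf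
  have heval : ∀ x, f.eval x = ∑ c, (α₀ c * x ^ n₀ c) ^ F * ∑ w, κ w * X c ^ e w * x ^ e w := by
    intro x
    rw [hf, eval_finsetSum]
    apply Finset.sum_congr rfl
    intro c _
    rw [eval_mul, eval_mul, eval_C, eval_pow, eval_X, eval_finsetSum, mul_pow, ← pow_mul]
    congr 1
    apply Finset.sum_congr rfl
    intro w _
    rw [eval_mul, eval_C, eval_pow, eval_X]
  have hsign : ∀ (b : ι) (k : Fin (m + 1)), 0 < (-1 : ℝ) ^ (k : ℕ) * f.eval (t k / X b) := by
    intro b k
    rw [heval]
    exact hF b k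
  have hcard : Fintype.card (ι × Fin m) = Fintype.card ι * m := by simp
  rw [← hcard]
  apply card_le_roots f (fun p => t p.2.castSucc / X p.1) (fun p => t p.2.succ / X p.1)
  · intro p
    apply div_lt_div_of_pos_right _ (hX0 p.1)
    exact htmono Fin.castSucc_lt_succ
  · rintro ⟨b, k⟩ ⟨c, l⟩ hne
    simp only
    by_cases hbc : b = c
    · subst hbc
      have hkl : k ≠ l := fun h => hne (by rw [h])
      rcases lt_or_gt_of_ne hkl with h | h
      · left
        apply div_le_div_of_nonneg_right _ (hX0 b).le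
        apply htmono.monotone
        rw [Fin.le_def]
        simp only [Fin.val_succ, Fin.val_castSucc]
        have := Fin.lt_def.mp h
        omega
      · right
        apply div_le_div_of_nonneg_right _ (hX0 b).le
        apply htmono.monotone
        rw [Fin.le_def]
        simp only [Fin.val_succ, Fin.val_castSucc]
        have := Fin.lt_def.mp h
        omega
    · have hXne : X b ≠ X c := fun h => hbc (hX h)
      have key : ∀ (b c : ι) (k l : Fin m), X b < X c → t l.succ / X c ≤ t k.castSucc / X b := by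
        intro b c k l h
        rw [div_le_div_iff₀ (hX0 c) (hX0 b)]
        have h1 := hθ2 b c h
        have h2 := mul_lt_mul_of_pos_right (htθ l.succ) (hX0 b)
        have h3 := mul_lt_mul_of_pos_right (ht1 k.castSucc) (hX0 c)
        linarith
      rcases lt_or_gt_of_ne hXne with h | h
      · right
        exact key b c k l h
      · left
        exact key c b l k h
  · rintro ⟨b, k⟩
    simp only
    have h1 := hsign b k.castSucc
    have h2 := hsign b k.succ
    simp only [Fin.val_succ, Fin.val_castSucc] at h1 h2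
    rw [pow_succ] at h2
    have h3 : (-1 : ℝ) ^ (k : ℕ) = 1 ∨ (-1 : ℝ) ^ (k : ℕ) = -1 := neg_one_pow_eq_or ℝ _
    rcases h3 with h3 | h3
    · rw [h3] at h1 h2
      have h4 : f.eval (t k.succ / X b) < 0 := by linarith
      exact mul_neg_of_pos_of_neg (by linarith) h4
    · rw [h3] at h1 h2
      exact mul_neg_of_neg_of_pos (by linarith) (by linarith)

end Pool.Agent.H746R4.Tau
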